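import Mathlib

namespace Pool.Agent.H1.NearT

/-- Structured form of a chain of rank `n - 1`. -/
def Good (G : Type*) [Group G] : Prop :=
  ∃ (θ E : G → G) (x0 : G), Function.Injective θ ∧ Function.Injective E ∧
    (∀ x, x ≠ x0 → x * θ x = E x) ∧ x0 * θ x0 ≠ E x0

theorem sq_inj {G : Type*} [Group G] [Finite G] (hodd : Odd (Nat.card G)) {a b : G}
    (h : a * a = b * b) : a = b := by
  have hc : (Nat.card G).Coprime 2 := (Nat.coprime_two_left.2 hodd).symm
  have := (powCoprime hc).injective (a₁ := a) (a₂ := b) (by simpa [pow_two] using h)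
  exact this

theorem construct {G Q : Type*} [Group G] [Group Q] [Finite G] (hodd : Odd (Nat.card G))
    (π : G →* Q) (y u : G) (k : ℕ) (hq : orderOf (π y) = 2 * k + 3)
    (hπ : ∀ x, ∃ i : ℕ, i < 2 * k + 3 ∧ π x = π y ^ i) (hu : π u = 1)
    (huy : u * y ≠ y * u) : Good G := by
  classical
  set q : ℕ := 2 * k + 3 with hqd
  set h : ℕ := k + 2 with hhd
  set c : G := u⁻¹ * y * u with hc
  set t : Q := π y with ht
  have hcπ : π c = t := by simp [hc, hu, ht]
  have htq : t ^ (q : ℤ) = 1 := by rw [← hq, zpow_natCast, pow_orderOf_eq_one]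
  choose ind hlt hind using hπ
  have uniq : ∀ x (i : ℕ), i < q → π x = t ^ (i : ℤ) → ind x = i := by
    intro x i hi hx
    rw [hind x, zpow_natCast, pow_eq_pow_iff_modEq, hq] at hx
    exact Nat.ModEq.eq_of_lt_of_lt hx (hlt x) hi
  let R : ℕ → G := fun i => if i = 0 then u else y ^ (i : ℤ)
  let C : ℕ → G := fun i => if i = 0 then 1 else if i < h then y ^ ((i : ℤ) - 1) * c
    else if i = h then y ^ ((h : ℤ) - q) * u else y ^ ((i : ℤ) - 1 - q) * c
  have hR : ∀ i, π (R i) = t ^ (i : ℤ) := by
    intro i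
    simp only [R]
    split_ifs with h0
    · rw [h0, hu]; simp
    · rw [map_zpow]
  have hC : ∀ i, π (C i) = t ^ (i : ℤ) := by
    intro i
    simp only [C]
    split_ifs with h0 h1 h2
    · rw [h0]; simp
    · rw [map_mul, map_zpow, hcπ, ← zpow_add_one]; congr 1; ring
    · rw [map_mul, map_zpow, hu, mul_one, zpow_sub, htq, h2]; simp [ht]
    · rw [map_mul, map_zpow, hcπ, ← zpow_add_one]
      have : (i : ℤ) - 1 - q + 1 = i - q := by ring
      rw [this, zpow_sub, htq]; simp [ht]
  have indR : ∀ i, i < q → ind (R i) = i := fun i hi => uniq _ _ hi (hR i)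
  have indC : ∀ i, i < q → ind (C i) = i := fun i hi => uniq _ _ hi (hC i)
  let θ0 : G → G := fun x => (R (ind x))⁻¹ * x * C (ind x)
  have hind' : ∀ x, π x = t ^ (ind x : ℤ) := fun x => by rw [hind x, zpow_natCast]
  have hθ0 : ∀ x, π (θ0 x) = t ^ (ind x : ℤ) := by
    intro x
    simp only [θ0, map_mul, map_inv, hR, hC]
    rw [hind' x]; group
  have indθ0 : ∀ x, ind (θ0 x) = ind x := fun x => uniq _ _ (hlt x) (hθ0 x)
  have θ0R : ∀ i, i < q → θ0 (R i) = C i := by
    intro i hi
    simp only [θ0, indR i hi]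
    group
  have θ0inj : Function.Injective θ0 := by
    intro x x' hx
    have hi : ind x = ind x' := by rw [← indθ0 x, hx, indθ0 x']
    simp only [θ0, hi] at hx
    exact mul_left_cancel (mul_right_cancel hx)
  let B : G → G := fun x => x * θ0 x
  have hB : ∀ x, π (B x) = t ^ (2 * (ind x : ℤ)) := by
    intro x
    simp only [B, map_mul, hθ0]
    rw [hind' x, ← zpow_add]; congr 1; ring
  have dbl : ∀ i j : ℕ, i < q → j < q → t ^ (2 * (i : ℤ)) = t ^ (2 * (j : ℤ)) → i = j := by
    intro i j hi hj hij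
    have h1 : t ^ (2 * i) = t ^ (2 * j) := by
      have := hij
      rw [← Nat.cast_ofNat, ← Nat.cast_mul, ← Nat.cast_mul, zpow_natCast, zpow_natCast] at this
      exact this
    rw [pow_eq_pow_iff_modEq, hq] at h1
    have h2 : Nat.gcd q 2 = 1 := by
      rw [hqd]; 
      have : Odd (2 * k + 3) := ⟨k + 1, by ring⟩
      exact (Nat.coprime_two_left.2 this).symm
    have h3 := Nat.ModEq.cancel_left_of_coprime h2 h1
    exact Nat.ModEq.eq_of_lt_of_lt h3 hi hj
  have Binj : Function.Injective B := by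
    intro x x' hx
    have hi : ind x = ind x' := by
      apply dbl _ _ (hlt x) (hlt x')
      rw [← hB, ← hB, hx]
    simp only [B, θ0, hi] at hx
    have h1 : (R (ind x'))⁻¹ * x * ((R (ind x'))⁻¹ * x)
        = (R (ind x'))⁻¹ * x' * ((R (ind x'))⁻¹ * x') := by
      have h2 : x * ((R (ind x'))⁻¹ * x) = x' * ((R (ind x'))⁻¹ * x') := by
        apply mul_right_cancel (b := C (ind x'))
        simpa [mul_assoc] using hx
      rw [mul_assoc, h2, ← mul_assoc]
    exact mul_left_cancel (sq_inj hodd h1)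
  let κ : ℕ → G → G := fun s x => if x = R (ind x) then R ((ind x + s) % q) else x
  have hq0 : 0 < q := by omega
  have κinj : ∀ s, Function.Injective (κ s) := by
    intro s x x' hx
    simp only [κ] at hx
    have hm : ∀ i, (i + s) % q < q := fun i => Nat.mod_lt _ hq0
    by_cases h1 : x = R (ind x) <;> by_cases h2 : x' = R (ind x')
    · rw [if_pos h1, if_pos h2] at hx
      have h3 := congrArg ind hx
      rw [indR _ (hm _), indR _ (hm _)] at h3
      have h4 : ind x ≡ ind x' [MOD q] := Nat.ModEq.add_right_cancel' s h3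
      have h5 := Nat.ModEq.eq_of_lt_of_lt h4 (hlt x) (hlt x')
      rw [h1, h2, h5]
    · rw [if_pos h1, if_neg h2] at hx
      exfalso; apply h2
      rw [← hx, indR _ (hm _)]
    · rw [if_neg h1, if_pos h2] at hx
      exfalso; apply h1
      rw [hx, indR _ (hm _)]
    · rw [if_neg h1, if_neg h2] at hx
      exact hx
  -- the cell identities
  have R0 : R 0 = u := by simp [R]
  have Rs : ∀ i, i ≠ 0 → R i = y ^ (i : ℤ) := fun i hi => by simp [R, hi]
  have C0 : C 0 = 1 := by simp [C]
  have C1 : ∀ i, i ≠ 0 → i < h → C i = y ^ ((i : ℤ) - 1) * c := fun i hi h1 => by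
    simp [C, hi, h1]
  have Ch : C h = y ^ ((h : ℤ) - q) * u := by simp [C, hhd]
  have C2 : ∀ i, h < i → C i = y ^ ((i : ℤ) - 1 - q) * c := fun i h1 => by
    have e1 : i ≠ 0 := by omega
    have e2 : ¬ i < h := by omega
    have e3 : i ≠ h := by omega
    simp only [C, e1, e2, e3, if_false]
  have qz : (q : ℤ) = 2 * h - 1 := by rw [hqd, hhd]; push_cast; ring
  have yc : ∀ a : ℤ, ∀ z, y ^ a * (y ^ z * c) = y ^ (a + z) * c := fun a z => by
    rw [← mul_assoc, ← zpow_add]
  have cell : ∀ i, i < q → i ≠ q - 1 →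
      R i * C ((i + 1) % q) = R ((i + h) % q) * C ((i + h) % q) := by
    intro i hi hiq
    have e1 : (i + 1) % q = i + 1 := Nat.mod_eq_of_lt (by omega)
    rw [e1]
    rcases Nat.eq_zero_or_pos i with h0 | hpos
    · subst h0
      have e2 : (0 + h) % q = h := by rw [zero_add]; exact Nat.mod_eq_of_lt (by omega)
      rw [e2, R0, zero_add, C1 1 (by omega) (by omega), Rs h (by omega), Ch]
      have e5 : (h : ℤ) + (h - q) = 1 := by rw [qz]; ring
      have e6 : y ^ (h : ℤ) * (y ^ ((h : ℤ) - q) * u) = y * u := by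
        rw [← mul_assoc, ← zpow_add, e5, zpow_one]
      rw [e6, hc]
      simp [mul_assoc]
    · rcases lt_trichotomy (i + 1) h with h1 | h1 | h1
      · have e2 : (i + h) % q = i + h := Nat.mod_eq_of_lt (by omega)
        rw [e2, Rs i (by omega), C1 (i + 1) (by omega) h1, Rs (i + h) (by omega),
          C2 (i + h) (by omega), yc, yc]
        congr 2; push_cast; rw [qz]; ring
      · have e2 : (i + h) % q = 0 := by
          have : i + h = q := by omega
          rw [this, Nat.mod_self]
        rw [e2, R0, C0, Rs i (by omega), h1, Ch, ← mul_assoc, ← zpow_add]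
        have : (i : ℤ) + (h - q) = 0 := by rw [qz, ← h1]; push_cast; ring
        rw [this]; simp
      · have e2 : (i + h) % q = i + h - q := by
          rw [Nat.mod_eq_sub_mod (by omega), Nat.mod_eq_of_lt (by omega)]
        have e3 : ((i + h - q : ℕ) : ℤ) = i + h - q := by
          rw [Nat.cast_sub (by omega)]; push_cast; ring
        rw [e2, Rs i (by omega), C2 (i + 1) (by omega), Rs (i + h - q) (by omega),
          C1 (i + h - q) (by omega) (by omega), yc, yc, e3]
        congr 2; push_cast; rw [qz]; ring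
  refine ⟨θ0 ∘ κ 1, B ∘ κ h, R (q - 1), θ0inj.comp (κinj 1), Binj.comp (κinj h), ?_, ?_⟩
  · intro x hx
    simp only [Function.comp, κ]
    by_cases h1 : x = R (ind x)
    · rw [if_pos h1, if_pos h1, θ0R _ (Nat.mod_lt _ hq0)]
      simp only [B]
      rw [θ0R _ (Nat.mod_lt _ hq0)]
      have h2 : ind x ≠ q - 1 := by
        intro h3; apply hx; rw [h1, h3]
      rw [← cell (ind x) (hlt x) h2, ← h1]
    · rw [if_neg h1, if_neg h1]
  · have hi : ind (R (q - 1)) = q - 1 := indR _ (by omega)
    simp only [Function.comp, κ, hi, if_true]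
    rw [θ0R _ (Nat.mod_lt _ hq0)]
    simp only [B]
    rw [θ0R _ (Nat.mod_lt _ hq0)]
    have e1 : (q - 1 + 1) % q = 0 := by
      have : q - 1 + 1 = q := by omega
      rw [this, Nat.mod_self]
    have e2 : (q - 1 + h) % q = h - 1 := by
      have : q - 1 + h = q + (h - 1) := by omega
      rw [this, Nat.add_mod_left, Nat.mod_eq_of_lt (by omega)]
    rw [e1, e2, C0, mul_one, Rs _ (by omega), Rs _ (by omega), C1 _ (by omega) (by omega), yc]
    intro hcon
    apply huy
    have e3 : ((q - 1 : ℕ) : ℤ) = 2 * h - 2 := by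
      rw [Nat.cast_sub (by omega), qz]; push_cast; ring
    have e4 : ((h - 1 : ℕ) : ℤ) = h - 1 := by
      rw [Nat.cast_sub (by omega)]; push_cast; ring
    rw [e3, e4] at hcon
    have e5 : (2 * (h : ℤ) - 2) = (h - 1 + (h - 1 - 1)) + 1 := by ring
    rw [e5, zpow_add_one] at hcon
    have h6 : y = c := mul_left_cancel hcon
    rw [hc] at h6
    calc u * y = u * (u⁻¹ * y * u) := by rw [← h6]
      _ = y * u := by group

end Pool.Agent.H1.NearT
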