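import Mathlib

namespace Pool.Agent.H1.NearT

/-- The rank of the chain `{(x, θ x) : x ∈ G}` of the Cayley table of `G`: the number of
distinct symbols `x * θ x` in its cells. -/
noncomputable def chainRank {G : Type*} [Group G] (θ : Equiv.Perm G) : ℕ :=
  (Set.range fun x : G => x * θ x).ncard

/-- `G` is `t`-admissible: some chain of its Cayley table has rank `t`. -/
def IsAdmissible (G : Type*) [Group G] (t : ℕ) : Prop :=
  ∃ θ : Equiv.Perm G, chainRank θ = t

end Pool.Agent.H1.NearT
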