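import Mathlib
import Pool.Agent.H1.NearT.Defs
import Pool.Agent.H1.NearT.Construct

namespace Pool.Agent.H1.NearT

theorem Good.admissible {G : Type*} [Group G] [Finite G] (hg : Good G) :
    IsAdmissible G (Nat.card G - 1) := by
  obtain ⟨θ, E, x0, hθ, hE, h1, h2⟩ := hg
  refine ⟨Equiv.ofBijective θ (Finite.injective_iff_bijective.1 hθ), ?_⟩
  have hEs : Function.Surjective E := Finite.injective_iff_surjective.1 hE
  have hr : (Set.range fun x : G => x * θ x) = {E x0}ᶜ := by
    ext z
    simp only [Set.mem_range, Set.mem_compl_iff, Set.mem_singleton_iff]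
    constructor
    · rintro ⟨x, rfl⟩ hx
      by_cases hx0 : x = x0
      · rw [hx0] at hx; exact h2 hx
      · rw [h1 x hx0] at hx; exact hx0 (hE hx)
    · intro hz
      obtain ⟨x, rfl⟩ := hEs z
      have : x ≠ x0 := fun h => hz (by rw [h])
      exact ⟨x, h1 x this⟩
  change (Set.range fun x : G => x * θ x).ncard = _
  rw [hr, Set.ncard_compl]
  simp

theorem Good.extend {G : Type*} [Group G] [Finite G] (hodd : Odd (Nat.card G))
    (H : Subgroup G) (hg : Good H) : Good G := by
  classical
  obtain ⟨θ, E, x0, hθ, hE, h1, h2⟩ := hg
  have hsq : ∀ x : G, x * x ∈ H → x ∈ H := by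
    intro x hx
    obtain ⟨k, hk⟩ := hodd
    have h3 : x ^ (Nat.card G) = 1 := pow_card_eq_one'
    have h4 : (x * x) ^ (k + 1) = x := by
      rw [← pow_two, ← pow_mul]
      have : 2 * (k + 1) = Nat.card G + 1 := by omega
      rw [this, pow_succ, h3, one_mul]
    rw [← h4]
    exact H.pow_mem hx _
  refine ⟨fun x => if h : x ∈ H then (θ ⟨x, h⟩ : G) else x,
    fun x => if h : x ∈ H then (E ⟨x, h⟩ : G) else x * x, x0, ?_, ?_, ?_, ?_⟩
  · intro x y hxy
    by_cases hx : x ∈ H <;> by_cases hy : y ∈ H
    · simp only [hx, hy, dif_pos] at hxy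
      have := hθ (Subtype.ext hxy)
      exact congrArg Subtype.val this
    · simp only [hx, hy, dif_pos, dif_neg, not_false_eq_true] at hxy
      exact absurd (hxy ▸ (θ ⟨x, hx⟩).2) hy
    · simp only [hx, hy, dif_pos, dif_neg, not_false_eq_true] at hxy
      exact absurd (hxy ▸ (θ ⟨y, hy⟩).2) hx
    · simpa only [hx, hy, dif_neg, not_false_eq_true] using hxy
  · intro x y hxy
    by_cases hx : x ∈ H <;> by_cases hy : y ∈ H
    · simp only [hx, hy, dif_pos] at hxy
      have := hE (Subtype.ext hxy)
      exact congrArg Subtype.val this
    · simp only [hx, hy, dif_pos, dif_neg, not_false_eq_true] at hxy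
      exact absurd (hsq y (hxy ▸ (E ⟨x, hx⟩).2)) hy
    · simp only [hx, hy, dif_pos, dif_neg, not_false_eq_true] at hxy
      exact absurd (hsq x (hxy ▸ (E ⟨y, hy⟩).2)) hx
    · simp only [hx, hy, dif_neg, not_false_eq_true] at hxy
      exact sq_inj hodd hxy
  · intro x hx0
    by_cases hx : x ∈ H
    · simp only [hx, dif_pos]
      have : (⟨x, hx⟩ : H) ≠ x0 := fun h => hx0 (congrArg Subtype.val h)
      exact congrArg Subtype.val (h1 _ this)
    · simp only [hx, dif_neg, not_false_eq_true]
  · simp only [x0.2, dif_pos]
    intro h
    exact h2 (Subtype.ext h)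

/-- A finite nontrivial group all of whose proper subgroups are commutative is not perfect. -/
theorem not_perfect {G : Type*} [Group G] [Finite G] [Nontrivial G]
    (hall : ∀ H : Subgroup G, H ≠ ⊤ → ∀ a ∈ H, ∀ b ∈ H, a * b = b * a) :
    commutator G ≠ ⊤ := by
  intro hperf
  have hnorm : ∀ (p : ℕ) (_ : Fact p.Prime) (P : Sylow p G), (P : Subgroup G).Normal := by
    intro p _ P
    by_contra hn
    have hne : Subgroup.normalizer (P : Set G) ≠ ⊤ := by
      intro h
      exact hn (Subgroup.normalizer_eq_top_iff.1 h)
    have hle : Subgroup.normalizer (P : Set G) ≤ Subgroup.centralizer (P : Set G) := by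
      intro g hg
      rw [Subgroup.mem_centralizer_iff]
      intro x hx
      exact hall _ hne x (Subgroup.le_normalizer hx) g hg
    let τ := MonoidHom.transferSylow P hle
    have hcomp := MonoidHom.ker_transferSylow_isComplement' P hle
    have hker : τ.ker = ⊤ := by
      rw [eq_top_iff, ← hperf]
      rw [commutator_def, Subgroup.commutator_le]
      intro a _ b _
      rw [MonoidHom.mem_ker, map_commutatorElement, commutatorElement_eq_one_iff_mul_comm]
      apply Subtype.ext
      exact hall _ hne _ (Subgroup.le_normalizer (τ a).2) _ (Subgroup.le_normalizer (τ b).2)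
    rw [hker] at hcomp
    have : (P : Subgroup G) = ⊥ := by
      simpa using hcomp
    apply hn
    rw [this]
    infer_instance
  have hnil : Group.IsNilpotent G :=
    (Group.isNilpotent_of_finite_tfae.out 0 3 rfl rfl).2 hnorm
  have : Group.IsSolvable G := inferInstance
  exact (Group.IsSolvable.commutator_lt_top_of_nontrivial G).ne hperf

theorem good_of_nonabelian : ∀ (n : ℕ) (G : Type*) [Group G] [Finite G],
    Nat.card G = n → Odd n → (∃ a b : G, a * b ≠ b * a) → Good G := by
  intro n
  induction n using Nat.strong_induction_on with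
  | _ n ih =>
    intro G _ _ hcard hodd hna
    by_cases hex : ∃ H : Subgroup G, H ≠ ⊤ ∧ ∃ a ∈ H, ∃ b ∈ H, a * b ≠ b * a
    · obtain ⟨H, hH, a, ha, b, hb, hab⟩ := hex
      have h1 : Nat.card H < n := by
        rw [← hcard]
        rcases lt_or_eq_of_le (Subgroup.card_le_card_group H) with h | h
        · exact h
        · exact absurd (Subgroup.eq_top_of_card_eq H h) hH
      have h2 : Odd (Nat.card H) := by
        rw [← hcard] at hodd
        exact Odd.of_dvd_nat hodd (Subgroup.card_subgroup_dvd_card H)
      have := ih (Nat.card H) h1 H rfl h2 ⟨⟨a, ha⟩, ⟨b, hb⟩, fun h => hab (congrArg Subtype.val h)⟩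
      exact this.extend (hcard ▸ hodd) H
    · push Not at hex
      have hntr : Nontrivial G := by
        obtain ⟨a, b, hab⟩ := hna
        refine ⟨⟨a, b, fun h => hab (by rw [h])⟩⟩
      have hnp := not_perfect hex
      obtain ⟨M, hM, hle⟩ := (eq_top_or_exists_le_coatom (commutator G)).resolve_left hnp
      have hMn : M.Normal := by
        constructor
        intro m hm g
        have h5 := Subgroup.commutator_mem_commutator (Subgroup.mem_top g) (Subgroup.mem_top m)
        rw [commutatorElement_def] at h5
        have h6 : g * m * g⁻¹ * m⁻¹ ∈ M := hle h5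
        have h7 := M.mul_mem h6 hm
        rwa [inv_mul_cancel_right] at h7
      obtain ⟨y, hy⟩ : ∃ y, y ∉ M := by
        by_contra hcon
        push Not at hcon
        exact hM.1 (eq_top_iff.2 fun x _ => hcon x)
      -- some `u ∈ M` does not commute with `y`
      obtain ⟨u, hu, huy⟩ : ∃ u ∈ M, u * y ≠ y * u := by
        by_contra hcon
        push Not at hcon
        obtain ⟨a, b, hab⟩ := hna
        have hcent : ∀ m ∈ M, ∀ g, m * g = g * m := by
          intro m hm
          have hlt : M < Subgroup.centralizer {m} := by
            rw [SetLike.lt_iff_le_and_exists]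
            refine ⟨fun x hx => ?_, y, ?_, hy⟩
            · rw [Subgroup.mem_centralizer_singleton_iff]
              exact hex M hM.1 _ hx _ hm
            · rw [Subgroup.mem_centralizer_singleton_iff]
              exact (hcon m hm).symm
          have htop := hM.2 _ hlt
          intro g
          have : g ∈ Subgroup.centralizer {m} := by rw [htop]; trivial
          rw [Subgroup.mem_centralizer_singleton_iff] at this
          exact this.symm
        have hlt : M < Subgroup.center G := by
          rw [SetLike.lt_iff_le_and_exists]
          refine ⟨fun x hx => ?_, y, ?_, hy⟩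
          · rw [Subgroup.mem_center_iff]
            intro g; exact (hcent x hx g).symm
          · have hlt2 : M < Subgroup.centralizer {y} := by
              rw [SetLike.lt_iff_le_and_exists]
              refine ⟨fun x hx => ?_, y, ?_, hy⟩
              · rw [Subgroup.mem_centralizer_singleton_iff]
                exact hcon x hx
              · rw [Subgroup.mem_centralizer_singleton_iff]
            have htop := hM.2 _ hlt2
            rw [Subgroup.mem_center_iff]
            intro g
            have : g ∈ Subgroup.centralizer {y} := by rw [htop]; trivial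
            rw [Subgroup.mem_centralizer_singleton_iff] at this
            exact this
        have htop := hM.2 _ hlt
        have : b ∈ Subgroup.center G := by rw [htop]; trivial
        rw [Subgroup.mem_center_iff] at this
        exact hab (this a)
      let π := QuotientGroup.mk' M
      have hπy : π y ≠ 1 := by
        intro h
        exact hy ((QuotientGroup.eq_one_iff y).1 h)
      have hcov : ∀ x, π x ∈ Subgroup.zpowers (π y) := by
        have hlt : M < (Subgroup.zpowers (π y)).comap π := by
          rw [SetLike.lt_iff_le_and_exists]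
          refine ⟨fun x hx => ?_, y, ?_, hy⟩
          · rw [Subgroup.mem_comap]
            have : π x = 1 := (QuotientGroup.eq_one_iff x).2 hx
            rw [this]; exact Subgroup.one_mem _
          · rw [Subgroup.mem_comap]
            exact Subgroup.mem_zpowers _
        have htop := hM.2 _ hlt
        intro x
        have : x ∈ (Subgroup.zpowers (π y)).comap π := by rw [htop]; trivial
        exact this
      have hodd' : Odd (Nat.card G) := hcard ▸ hodd
      have hoq : Odd (orderOf (π y)) := by
        refine Odd.of_dvd_nat hodd' ?_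
        exact (orderOf_map_dvd π y).trans (orderOf_dvd_natCard y)
      have hne1 : orderOf (π y) ≠ 1 := by
        rw [Ne, orderOf_eq_one_iff]; exact hπy
      obtain ⟨k', hk'⟩ := hoq
      have hk1 : 1 ≤ k' := by omega
      obtain ⟨k, rfl⟩ := Nat.exists_eq_add_of_le' hk1
      have hq : orderOf (π y) = 2 * k + 3 := by omega
      refine construct hodd' π y u k hq ?_ ((QuotientGroup.eq_one_iff u).2 hu) huy
      intro x
      have hfin : IsOfFinOrder (π y) := isOfFinOrder_of_finite _
      have := hcov x
      rw [← hfin.mem_powers_iff_mem_zpowers, Submonoid.mem_powers_iff] at this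
      obtain ⟨i, hi⟩ := this
      refine ⟨i % (2 * k + 3), Nat.mod_lt _ (by omega), ?_⟩
      rw [← hi, ← hq, pow_mod_orderOf]

theorem main (G : Type*) [Group G] [Finite G] (hodd : Odd (Nat.card G))
    (hna : ∃ a b : G, a * b ≠ b * a) : IsAdmissible G (Nat.card G - 1) :=
  (good_of_nonabelian _ G rfl hodd hna).admissible

end Pool.Agent.H1.NearT
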